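import Pool.Agent.R266.WeiTwo

set_option autoImplicit false

/-!
# MP_935c4d_an: interior level sets of prevalent Weierstrass functions

For `b = 1000` and a suitable `0 < α < 1` there is a nonempty open ball of `Lip(S¹)` all of whose
members `g` have an interior level set of `W_g` with exactly two points. So it is not true that for
prevalent `g` every interior level set has Hausdorff dimension `1 - α`.
-/

open MeasureTheory Set
open scoped ENNReal NNReal

namespace Pool.Agent.Results.MP_935c4d_an.TwoPointLevel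

open Pool.Agent.W172.WL Pool.Agent.W337.WL Pool.Agent.R733.Wei Pool.Agent.R266.WT

theorem result : ∃ (b : ℕ) (α : ℝ), 2 ≤ b ∧ 0 < α ∧ α < 1 ∧
    (∃ (g₀ : LS) (ε : ℝ), 0 < ε ∧ ∀ g ∈ Metric.ball g₀ ε,
      ∃ y ∈ interior (range (W b α g.fn)), ∃ xp xm : ℝ, xp ≠ xm ∧
        {x | x ∈ Ico (0:ℝ) 1 ∧ W b α g.fn x = y} = {xp, xm}) ∧
    ¬ IsShy {g : LS | ¬ ∀ y ∈ interior (range (W b α g.fn)),
      dimH {x | x ∈ Ico (0:ℝ) 1 ∧ W b α g.fn x = y} = ENNReal.ofReal (1 - α)} := by
  refine ⟨1000, al, by norm_num, al_pos, al_lt, ball_two, ?_⟩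
  obtain ⟨g₀, ε, hε, H⟩ := ball_two
  refine not_isShy_of_ball hε (g := g₀) fun g hg hall => ?_
  obtain ⟨y, hy, xp, xm, -, hset⟩ := H g hg
  have h1 := hall y hy
  rw [hset] at h1
  have h2 : dimH ({xp, xm} : Set ℝ) = 0 := dimH_finite (Set.toFinite _)
  rw [h2] at h1
  have h3 : (0 : ENNReal) < ENNReal.ofReal (1 - al) :=
    ENNReal.ofReal_pos.mpr (by linarith [al_lt])
  exact absurd h1 h3.ne

end Pool.Agent.Results.MP_935c4d_an.TwoPointLevel
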